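import Pool.Agent.Lib.BSDP.Def

/-!
Module B.Fin of MP_48b749_nt (positive proportion). Ternary quadratic forms over a finite field of
odd characteristic.

PROOFS. `fin_isotropic`: first `exists_diag`-free argument: let `q v = dotProduct v (G.mulVec v)`.
If `G 0 0 = 0` take `v = e₀`. Otherwise complete the square: with `g = G 0 0`, for
`v = (x, y, z)`: `g * q v = (g x + G01 y + G02 z) ^ 2 + (binary form in y, z)`, binary form with
symmetric matrix `H`, `det H = g * det G ≠ 0`. If `H 0 0 = 0` take `y = 1, z = 0` and solve for `x`.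
Otherwise `h * H (y, z) = (h y + H01 z) ^ 2 + det H * z ^ 2`, `h = H 0 0`. So one needs
`X ^ 2 + h⁻¹ (Y ^ 2 + D Z ^ 2) = 0`; take `Z = 1`: `FiniteField.exists_root_sum_quadratic`
(Chevalley-Warning type lemma in Mathlib for two quadratic polynomials in two variables:
`f = X ^ 2`, `g = h⁻¹ X ^ 2 + h⁻¹ D`), nonzero since `Z = 1`.
(Alternatively Chevalley-Warning for one form in three variables.)
`fin_normal`: let `v ≠ 0` be isotropic. `G.mulVec v ≠ 0` (`det G ≠ 0`), so there is `w` with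
`⟨v, w⟩ = 1` (a multiple of a unit vector), and replacing `w` by `w - (⟨w, w⟩ / 2) v` we may assume
`⟨w, w⟩ = 0`. The orthogonal complement of `v, w` contains `u ≠ 0` (the vector
`u = cross product of G v and G w`, nonzero because `G v, G w` are linearly independent); `⟨u, u⟩ ≠ 0`
by nondegeneracy. Let `S₀` be the matrix with rows `v, u, w`: `S₀ G S₀ᵀ = [[0,0,1],[0,c,0],[1,0,0]]`
with `c = ⟨u, u⟩`, so `- c = det G * (det S₀) ^ 2` and `c = δ ^ 2 (det S₀) ^ 2` is a nonzero square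
`ε ^ 2`: replace `u` by `u / ε`.
-/

set_option autoImplicit false

open Polynomial

namespace Pool.Agent.BSDP

variable {κ : Type} [Field κ]

private theorem quad_eq (G : Matrix (Fin 3) (Fin 3) κ) (hG : G.IsSymm) (x y z : κ) :
    dotProduct ![x, y, z] (G.mulVec ![x, y, z]) = G 0 0 * x ^ 2 + G 1 1 * y ^ 2 + G 2 2 * z ^ 2 +
      2 * G 0 1 * x * y + 2 * G 0 2 * x * z + 2 * G 1 2 * y * z := by
  have h1 : G 1 0 = G 0 1 := hG.apply 0 1
  have h2 : G 2 0 = G 0 2 := hG.apply 0 2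
  have h3 : G 2 1 = G 1 2 := hG.apply 1 2
  simp [dotProduct, Matrix.mulVec, Fin.sum_univ_three, h1, h2, h3]
  ring

private theorem det_symm (G : Matrix (Fin 3) (Fin 3) κ) (hG : G.IsSymm) :
    G.det = G 0 0 * G 1 1 * G 2 2 + 2 * G 0 1 * G 0 2 * G 1 2 - G 0 0 * G 1 2 ^ 2 -
      G 1 1 * G 0 2 ^ 2 - G 2 2 * G 0 1 ^ 2 := by
  have h1 : G 1 0 = G 0 1 := hG.apply 0 1
  have h2 : G 2 0 = G 0 2 := hG.apply 0 2
  have h3 : G 2 1 = G 1 2 := hG.apply 1 2
  rw [Matrix.det_fin_three, h1, h2, h3]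
  ring

private theorem fin_root [Finite κ] (h2 : (2 : κ) ≠ 0) {h D : κ} (hh : h ≠ 0) :
    ∃ X Y : κ, h * X ^ 2 + Y ^ 2 + D = 0 := by
  have hF : Fintype κ := Fintype.ofFinite κ
  have hchar : ringChar κ ≠ 2 := by
    intro hc
    apply h2
    have := ringChar.Nat.cast_ringChar (R := κ)
    rw [hc] at this
    exact_mod_cast this
  have hodd := FiniteField.odd_card_of_char_ne_two hchar
  have hf : (C h * X ^ 2 : κ[X]).degree = 2 := by
    rw [degree_C_mul_X_pow 2 hh]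
    rfl
  have hg : (X ^ 2 + C D : κ[X]).degree = 2 := by
    rw [degree_X_pow_add_C (by norm_num)]
    rfl
  obtain ⟨a, b, hab⟩ := FiniteField.exists_root_sum_quadratic hf hg hodd
  refine ⟨a, b, ?_⟩
  simp at hab
  rw [← hab]
  ring

theorem fin_isotropic [Finite κ] (h2 : (2 : κ) ≠ 0) (G : Matrix (Fin 3) (Fin 3) κ)
    (hG : G.IsSymm) (hdet : G.det ≠ 0) : Isotropic G := by
  by_cases ha : G 0 0 = 0
  · refine ⟨![1, 0, 0], fun h => one_ne_zero (congrFun h 0), ?_⟩
    rw [quad_eq G hG, ha]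
    ring
  by_cases hh : G 0 0 * G 1 1 - G 0 1 ^ 2 = 0
  · refine ⟨![-(G 0 1) / G 0 0, 1, 0], fun h => one_ne_zero (congrFun h 1), ?_⟩
    rw [quad_eq G hG]
    field_simp
    linear_combination hh
  obtain ⟨X, Y, hXY⟩ := fin_root h2 (D := G 0 0 * G.det) hh
  obtain ⟨y, hy⟩ : ∃ y, (G 0 0 * G 1 1 - G 0 1 ^ 2) * y + (G 0 0 * G 1 2 - G 0 1 * G 0 2) = Y :=
    ⟨(Y - (G 0 0 * G 1 2 - G 0 1 * G 0 2)) / (G 0 0 * G 1 1 - G 0 1 ^ 2), by field_simp; ring⟩
  obtain ⟨x, hx⟩ : ∃ x, G 0 0 * x + G 0 1 * y + G 0 2 = X :=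
    ⟨(X - G 0 1 * y - G 0 2) / G 0 0, by field_simp; ring⟩
  refine ⟨![x, y, 1], fun h => one_ne_zero (congrFun h 2), ?_⟩
  have h3 : (G 0 0 * G 1 1 - G 0 1 ^ 2) * G 0 0 * dotProduct ![x, y, 1] (G.mulVec ![x, y, 1]) = 0 := by
    rw [quad_eq G hG, ← hXY, ← hx, ← hy, det_symm G hG]
    ring
  exact (mul_eq_zero.1 h3).resolve_left (mul_ne_zero hh ha)

private theorem row_form (G S : Matrix (Fin 3) (Fin 3) κ) (i j : Fin 3) :
    (S * G * S.transpose) i j = dotProduct (S i) (G.mulVec (S j)) := by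
  simp only [Matrix.mul_apply, dotProduct, Matrix.mulVec, Fin.sum_univ_three, Matrix.transpose_apply]
  ring

private theorem bil_symm (G : Matrix (Fin 3) (Fin 3) κ) (hG : G.IsSymm) (x y : Fin 3 → κ) :
    dotProduct x (G.mulVec y) = dotProduct y (G.mulVec x) := by
  rw [Matrix.dotProduct_mulVec, ← Matrix.mulVec_transpose, hG.eq, dotProduct_comm]

private theorem det_rows (v p q w : Fin 3 → κ) :
    (Matrix.of ![v, crossProduct p q, w]).det =
      dotProduct v q * dotProduct w p - dotProduct v p * dotProduct w q := by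
  rw [Matrix.det_fin_three, cross_apply]
  simp [dotProduct, Fin.sum_univ_three]
  ring

theorem fin_normal [Finite κ] (h2 : (2 : κ) ≠ 0) (G : Matrix (Fin 3) (Fin 3) κ)
    (hG : G.IsSymm) (δ : κ) (hδ : δ ≠ 0) (hdet : -G.det = δ ^ 2) :
    ∃ S : Matrix (Fin 3) (Fin 3) κ, S.det ≠ 0 ∧ S * G * S.transpose = G0 κ := by
  have hdet0 : G.det ≠ 0 := by
    intro h
    rw [h, neg_zero] at hdet
    exact pow_ne_zero 2 hδ hdet.symm
  obtain ⟨v, hv, hvv⟩ := fin_isotropic h2 G hG hdet0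
  have hGv : G.mulVec v ≠ 0 := fun h => hv (Matrix.eq_zero_of_mulVec_eq_zero hdet0 h)
  obtain ⟨i, hi⟩ := Function.ne_iff.1 hGv
  obtain ⟨w0, hw0⟩ : ∃ w0 : Fin 3 → κ, dotProduct w0 (G.mulVec v) = 1 := by
    refine ⟨Pi.single i (G.mulVec v i)⁻¹, ?_⟩
    rw [single_dotProduct]
    exact inv_mul_cancel₀ hi
  obtain ⟨w, hw⟩ : ∃ w : Fin 3 → κ, w = w0 - (dotProduct w0 (G.mulVec w0) / 2) • v := ⟨_, rfl⟩
  have hvw0 : dotProduct v (G.mulVec w0) = 1 := by rw [bil_symm G hG, hw0]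
  have hvw : dotProduct v (G.mulVec w) = 1 := by
    rw [hw, Matrix.mulVec_sub, Matrix.mulVec_smul, dotProduct_sub, dotProduct_smul, hvv, hvw0]
    simp
  have hwv : dotProduct w (G.mulVec v) = 1 := by rw [bil_symm G hG, hvw]
  have hww : dotProduct w (G.mulVec w) = 0 := by
    rw [hw, Matrix.mulVec_sub, Matrix.mulVec_smul, dotProduct_sub, dotProduct_smul, sub_dotProduct,
      sub_dotProduct, smul_dotProduct, smul_dotProduct, hvv, hvw0, hw0]
    simp only [smul_eq_mul]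
    field_simp
    ring
  obtain ⟨u, hu⟩ : ∃ u : Fin 3 → κ, u = crossProduct (G.mulVec v) (G.mulVec w) := ⟨_, rfl⟩
  have huv : dotProduct u (G.mulVec v) = 0 := by
    rw [hu, dotProduct_comm]; exact dot_self_cross _ _
  have huw : dotProduct u (G.mulVec w) = 0 := by
    rw [hu, dotProduct_comm]; exact dot_cross_self _ _
  have hvu : dotProduct v (G.mulVec u) = 0 := by rw [bil_symm G hG, huv]
  have hwu : dotProduct w (G.mulVec u) = 0 := by rw [bil_symm G hG, huw]
  have hS0 : (Matrix.of ![v, u, w]).det = 1 := by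
    rw [hu, det_rows, hvw, hwv, hvv]
    ring
  have huu : dotProduct u (G.mulVec u) = δ ^ 2 := by
    have h3 : (Matrix.of ![v, u, w] * G * (Matrix.of ![v, u, w]).transpose).det = G.det := by
      rw [Matrix.det_mul, Matrix.det_mul, Matrix.det_transpose, hS0]
      ring
    have r0 : (Matrix.of ![v, u, w]) 0 = v := rfl
    have r1 : (Matrix.of ![v, u, w]) 1 = u := rfl
    have r2 : (Matrix.of ![v, u, w]) 2 = w := rfl
    rw [Matrix.det_fin_three] at h3
    simp only [row_form, r0, r1, r2] at h3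
    rw [hvv, hvw, hwv, hww, huv, huw, hvu, hwu] at h3
    rw [← hdet]
    linear_combination -h3
  refine ⟨Matrix.of ![v, δ⁻¹ • u, w], ?_, ?_⟩
  · have h3 : (Matrix.of ![v, δ⁻¹ • u, w]).det = δ⁻¹ * (Matrix.of ![v, u, w]).det := by
      rw [Matrix.det_fin_three, Matrix.det_fin_three]
      simp
      ring
    rw [h3, hS0, mul_one]
    exact inv_ne_zero hδ
  · have r0 : (Matrix.of ![v, δ⁻¹ • u, w]) 0 = v := rfl
    have r1 : (Matrix.of ![v, δ⁻¹ • u, w]) 1 = δ⁻¹ • u := rfl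
    have r2 : (Matrix.of ![v, δ⁻¹ • u, w]) 2 = w := rfl
    have key : ∀ i j : Fin 3, (Matrix.of ![v, δ⁻¹ • u, w] * G *
        (Matrix.of ![v, δ⁻¹ • u, w]).transpose) i j = G0 κ i j := by
      intro i j
      rw [row_form]
      match i, j with
      | 0, 0 => rw [r0, hvv]; rfl
      | 0, 1 => rw [r0, r1, Matrix.mulVec_smul, dotProduct_smul, hvu, smul_zero]; rfl
      | 0, 2 => rw [r0, r2, hvw]; rfl
      | 1, 0 => rw [r0, r1, smul_dotProduct, huv, smul_zero]; rfl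
      | 1, 1 =>
        rw [r1, Matrix.mulVec_smul, dotProduct_smul, smul_dotProduct, huu]
        simp only [smul_eq_mul]
        have : δ⁻¹ * (δ⁻¹ * δ ^ 2) = 1 := by field_simp
        rw [this]; rfl
      | 1, 2 => rw [r1, r2, smul_dotProduct, huw, smul_zero]; rfl
      | 2, 0 => rw [r0, r2, hwv]; rfl
      | 2, 1 => rw [r1, r2, Matrix.mulVec_smul, dotProduct_smul, hwu, smul_zero]; rfl
      | 2, 2 => rw [r2, hww]; rfl
    ext i j
    exact key i j

end Pool.Agent.BSDP
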